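import Pool.Agent.helper48.HG.Defs

open Polynomial

namespace HG48

open HF48

variable {F : Type} [Field F] [Fintype F]

theorem h5a_card_degreeLT (k : ℕ) :
    Nat.card (degreeLT F k) = (Fintype.card F) ^ k := by
  rw [Nat.card_congr (degreeLTEquiv F k).toEquiv, Nat.card_eq_fintype_card, Fintype.card_fun,
    Fintype.card_fin]

omit [Fintype F] in
theorem h5a_deg_sum {n m d : ℕ} (v : Fin n → F[X]) (hv : ∀ j, (v j).natDegree ≤ d)
    (w : Fin n → F[X]) (s : Finset (Fin n)) (hw : ∀ j ∈ s, (w j).degree < m) :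
    (∑ j ∈ s, w j * v j).degree < ((m + d : ℕ) : WithBot ℕ) := by
  rw [← mem_degreeLT]
  refine Submodule.sum_mem _ (fun j hj => ?_)
  rw [mem_degreeLT]
  by_cases hw0 : w j = 0
  · rw [hw0, zero_mul, degree_zero]
    exact WithBot.bot_lt_coe _
  by_cases hv0 : v j = 0
  · rw [hv0, mul_zero, degree_zero]
    exact WithBot.bot_lt_coe _
  have h1 := hw j hj
  rw [degree_eq_natDegree hw0] at h1
  have h2 : (w j).natDegree < m := by exact_mod_cast h1
  rw [degree_mul, degree_eq_natDegree hw0, degree_eq_natDegree hv0]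
  have h3 := hv j
  have h4 : (w j).natDegree + (v j).natDegree < m + d := by omega
  exact_mod_cast h4

/-- the linear map `w ↦ ∑ w_j v_j` -/
noncomputable def h5a_phi {n m d : ℕ} (v : Fin n → F[X]) (hv : ∀ j, (v j).natDegree ≤ d) :
    L F n m →ₗ[F] degreeLT F (m + d) where
  toFun w := ⟨∑ j, (w : Fin n → F[X]) j * v j, by
    rw [mem_degreeLT]
    exact h5a_deg_sum v hv _ Finset.univ (fun j _ => mem_L.1 w.2 j)⟩
  map_add' x y := by
    apply Subtype.ext
    change ∑ j, ((x : Fin n → F[X]) j + (y : Fin n → F[X]) j) * v j =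
      ∑ j, (x : Fin n → F[X]) j * v j + ∑ j, (y : Fin n → F[X]) j * v j
    rw [← Finset.sum_add_distrib]
    refine Finset.sum_congr rfl (fun j _ => ?_)
    ring
  map_smul' c x := by
    apply Subtype.ext
    change ∑ j, (c • (x : Fin n → F[X]) j) * v j = c • ∑ j, (x : Fin n → F[X]) j * v j
    rw [Finset.smul_sum]
    refine Finset.sum_congr rfl (fun j _ => ?_)
    rw [smul_mul_assoc]

omit [Fintype F] in
theorem h5a_phi_surj {n m d : ℕ} (v : Fin n → F[X]) (hv : ∀ j, (v j).natDegree ≤ d)
    (j₀ : Fin n) (h0 : (v j₀).natDegree = d) (h1 : v j₀ ≠ 0) (b : Fin n → F[X])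
    (hb : ∑ j, b j * v j = 1) (hd : d ≤ m) :
    Function.Surjective (h5a_phi (m := m) v hv) := by
  classical
  rintro ⟨g, hg⟩
  rw [mem_degreeLT] at hg
  have hdeg : (v j₀).degree = (d : WithBot ℕ) := by rw [degree_eq_natDegree h1, h0]
  set s : Finset (Fin n) := Finset.univ.erase j₀ with hs
  set r : Fin n → F[X] := fun j => (g * b j) % v j₀ with hr
  set t : Fin n → F[X] := fun j => (g * b j) / v j₀ with ht
  have hrt : ∀ j, v j₀ * t j + r j = g * b j := fun j => EuclideanDomain.div_add_mod _ _
  have hrd : ∀ j, (r j).degree < d := by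
    intro j
    have := degree_mod_lt (g * b j) h1
    rwa [hdeg] at this
  set x : F[X] := g * b j₀ + ∑ j ∈ s, t j * v j with hx
  -- the identity
  have hid : x * v j₀ + ∑ j ∈ s, r j * v j = g := by
    have e1 : x * v j₀ + ∑ j ∈ s, r j * v j = g * b j₀ * v j₀ + ∑ j ∈ s, g * b j * v j := by
      rw [hx, add_mul, Finset.sum_mul, add_assoc, ← Finset.sum_add_distrib]
      congr 1
      refine Finset.sum_congr rfl (fun j _ => ?_)
      rw [← hrt j]
      ring
    rw [e1, hs, Finset.add_sum_erase Finset.univ (fun j => g * b j * v j) (Finset.mem_univ j₀)]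
    have e2 : ∑ j, g * b j * v j = g * ∑ j, b j * v j := by
      rw [Finset.mul_sum]
      refine Finset.sum_congr rfl (fun j _ => ?_)
      ring
    rw [e2, hb, mul_one]
  have hxd : x.degree < m := by
    by_cases hx0 : x = 0
    · rw [hx0, degree_zero]
      exact WithBot.bot_lt_coe _
    have e3 : x * v j₀ = g - ∑ j ∈ s, r j * v j := by
      rw [← hid]
      ring
    have e4 : (x * v j₀).degree < ((m + d : ℕ) : WithBot ℕ) := by
      rw [e3]
      refine lt_of_le_of_lt (degree_sub_le _ _) (max_lt hg ?_)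
      refine h5a_deg_sum v hv r s (fun j _ => lt_of_lt_of_le (hrd j) ?_)
      exact_mod_cast hd
    rw [degree_mul, hdeg, degree_eq_natDegree hx0] at e4
    have e5 : x.natDegree + d < m + d := by exact_mod_cast e4
    rw [degree_eq_natDegree hx0]
    have e6 : x.natDegree < m := by omega
    exact_mod_cast e6
  set w : Fin n → F[X] := fun j => if j = j₀ then x else r j with hw
  have hwL : w ∈ L F n m := by
    rw [mem_L]
    intro j
    by_cases hj : j = j₀
    · simp only [hw, hj, if_true]
      exact hxd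
    · simp only [hw, hj, if_false]
      refine lt_of_lt_of_le (hrd j) ?_
      exact_mod_cast hd
  refine ⟨⟨w, hwL⟩, ?_⟩
  apply Subtype.ext
  change ∑ j, w j * v j = g
  rw [← Finset.add_sum_erase Finset.univ (fun j => w j * v j) (Finset.mem_univ j₀)]
  have e7 : w j₀ = x := by simp only [hw, if_true]
  have e8 : ∑ j ∈ Finset.univ.erase j₀, w j * v j = ∑ j ∈ s, r j * v j := by
    refine Finset.sum_congr rfl (fun j hj => ?_)
    have : j ≠ j₀ := Finset.ne_of_mem_erase hj
    simp only [hw, this, if_false]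
  simp only [e7, e8]
  exact hid

/-- Proof: the F-linear map w ↦ ∑ w_j v_j from L F n m to degreeLT F (m + d) is onto: for g of degree
below m + d start with w_j = g b_j, replace w_j (j ≠ j₀) by its remainder modulo v j₀ (degree below
d ≤ m; EuclideanDomain / `modByMonic` after scaling, or `%`), and correct w_{j₀}; then
w_{j₀} v_{j₀} = g - ∑_{j ≠ j₀} w_j v_j has degree below m + d, so deg w_{j₀} < m. Rank-nullity and
card (degreeLT F (m+d)) = Q^(m+d), card (L F n m) = Q^(n m) (card_L_le, card_L_ge). -/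
theorem card_orth_prim {n m d : ℕ} (v : Fin n → F[X]) (hv : ∀ j, (v j).natDegree ≤ d)
    (j₀ : Fin n) (h0 : (v j₀).natDegree = d) (h1 : v j₀ ≠ 0) (b : Fin n → F[X])
    (hb : ∑ j, b j * v j = 1) (hd : d ≤ m) :
    Nat.card {w : L F n m // ∑ j, (w : Fin n → F[X]) j * v j = 0} * (Fintype.card F) ^ (m + d) ≤
      (Fintype.card F) ^ (n * m) := by
  have hsurj := h5a_phi_surj (m := m) v hv j₀ h0 h1 b hb hd
  set φ := h5a_phi (m := m) v hv with hφ
  have hker : Nat.card {w : L F n m // ∑ j, (w : Fin n → F[X]) j * v j = 0} =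
      Nat.card (LinearMap.ker φ) := by
    refine Nat.card_congr (Equiv.subtypeEquivRight (fun w => ?_))
    rw [LinearMap.mem_ker]
    constructor
    · intro h
      apply Subtype.ext
      exact h
    · intro h
      exact congrArg Subtype.val h
  have hq : Nat.card (L F n m) = Nat.card (LinearMap.ker φ) * Nat.card (degreeLT F (m + d)) := by
    rw [Submodule.card_eq_card_quotient_mul_card (LinearMap.ker φ),
      Nat.card_congr (φ.quotKerEquivOfSurjective hsurj).toEquiv]
  rw [hker, ← h5a_card_degreeLT (F := F) (m + d), ← hq]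
  exact card_L_le n m

end HG48
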