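import Pool.Agent.helper48.HG.A

open Polynomial

namespace HG48

open HF48

variable {F : Type} [Field F]

theorem prim_exists {n D : ℕ} {ι : Type} (w : ι → Fin n → F[X]) (v : Fin n → F[X])
    (hv : v ∈ L F n D) (hv0 : v ≠ 0) (h : ∀ i, ∑ j, w i j * v j = 0) :
    ∃ v' ∈ L F n D, (∀ i, ∑ j, w i j * v' j = 0) ∧ ∃ b : Fin n → F[X], ∑ j, b j * v' j = 1 := by
  obtain ⟨g, hg⟩ := (IsPrincipalIdealRing.principal (Ideal.span (Set.range v))).principal
  have hg' : Ideal.span (Set.range v) = Ideal.span {g} := hg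
  have hdiv : ∀ j, ∃ c, v j = g * c := by
    intro j
    have h1 : v j ∈ Ideal.span (Set.range v) := Ideal.subset_span ⟨j, rfl⟩
    rw [hg'] at h1
    exact Ideal.mem_span_singleton.mp h1
  choose v' hv' using hdiv
  have hgm : g ∈ Ideal.span (Set.range v) := by
    rw [hg']
    exact Ideal.mem_span_singleton_self g
  rw [Ideal.mem_span_range_iff_exists_fun] at hgm
  obtain ⟨b, hb⟩ := hgm
  have hg0 : g ≠ 0 := by
    rintro rfl
    apply hv0
    funext j
    rw [hv' j, zero_mul]
    rfl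
  refine ⟨v', ?_, ?_, b, ?_⟩
  · rw [mem_L] at hv ⊢
    intro j
    refine lt_of_le_of_lt ?_ (hv j)
    rw [hv' j]
    by_cases h0 : v' j = 0
    · rw [h0, degree_zero]
      exact bot_le
    · rw [mul_comm]
      exact degree_le_mul_left _ hg0
  · intro i
    have h1 := h i
    have h2 : ∑ j, w i j * v j = g * ∑ j, w i j * v' j := by
      rw [Finset.mul_sum]
      refine Finset.sum_congr rfl (fun j _ => ?_)
      rw [hv' j]
      ring
    rw [h2] at h1
    exact (mul_eq_zero.mp h1).resolve_left hg0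
  · have h2 : g * ∑ j, b j * v' j = g * 1 := by
      rw [Finset.mul_sum, mul_one]
      calc ∑ j, g * (b j * v' j) = ∑ j, b j * v j := by
            refine Finset.sum_congr rfl (fun j _ => ?_)
            rw [hv' j]
            ring
        _ = g := hb
    exact mul_left_cancel₀ hg0 h2

variable [Fintype F]

theorem geom_le (R : ℕ) (hR : 2 ≤ R) (D : ℕ) : ∑ d ∈ Finset.range D, R ^ d ≤ R ^ D := by
  have h1 : ∑ d ∈ Finset.range D, R ^ d + 1 ≤ R ^ D := by
    induction D with
    | zero => simp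
    | succ D ih =>
      rw [Finset.sum_range_succ, pow_succ]
      have h2 : 1 ≤ R ^ D := Nat.one_le_pow _ _ (by omega)
      nlinarith
  omega

/-- the number of arrays orthogonal to v -/
theorem card_arrays {l n m : ℕ} (v : Fin n → F[X]) :
    Nat.card {w : Fin l → L F n m // ∀ i, ∑ j, (w i : Fin n → F[X]) j * v j = 0} =
      (Nat.card {w : L F n m // ∑ j, (w : Fin n → F[X]) j * v j = 0}) ^ l := by
  rw [Nat.card_congr (Equiv.subtypePiEquivPi (β := fun _ : Fin l => L F n m)
    (p := fun _ w => ∑ j, (w : Fin n → F[X]) j * v j = 0))]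
  rw [Nat.card_pi]
  simp

open Classical in
theorem bad_a {l n m D₂ : ℕ} (hln : l < n) (h : (n - l) * D₂ + n + 3 ≤ l * m) (hD : D₂ ≤ m) :
    8 * Nat.card {w : Fin l → L F n m // ∃ v ∈ L F n D₂, v ≠ 0 ∧
      ∀ i, ∑ j, (w i : Fin n → F[X]) j * v j = 0} ≤ (Fintype.card F) ^ (l * (n * m)) := by
  set Q : ℕ := Fintype.card F with hQ
  have hQ2 : 2 ≤ Q := Fintype.one_lt_card
  have hfin : Finite (L F n m) := (finite_L n m).to_subtype
  letI : Fintype (L F n m) := Fintype.ofFinite _
  set dd : (Fin n → F[X]) → ℕ := fun v => Finset.univ.sup (fun j => (v j).natDegree) with hdd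
  set S : Finset (Fin n → F[X]) :=
    (finite_L (F := F) n D₂).toFinset.filter (fun v => ∃ b : Fin n → F[X], ∑ j, b j * v j = 1) with hS
  have hSmem : ∀ v, v ∈ S ↔ v ∈ L F n D₂ ∧ ∃ b : Fin n → F[X], ∑ j, b j * v j = 1 := by
    intro v
    rw [hS, Finset.mem_filter, Set.Finite.mem_toFinset]
    rfl
  have hj0 : ∀ v ∈ S, ∃ j₀, (v j₀).natDegree = dd v ∧ v j₀ ≠ 0 := by
    intro v hv
    obtain ⟨_, b, hb⟩ := (hSmem v).mp hv
    have hne : ∃ j, v j ≠ 0 := by
      by_contra hcon
      have hcon' : ∀ j, v j = 0 := fun j => by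
        by_contra hj
        exact hcon ⟨j, hj⟩
      have : ∑ j, b j * v j = 0 := Finset.sum_eq_zero (fun j _ => by rw [hcon' j, mul_zero])
      rw [hb] at this
      exact one_ne_zero this
    obtain ⟨j₁, hj₁⟩ := hne
    obtain ⟨j₀, _, h0⟩ := Finset.exists_mem_eq_sup (Finset.univ : Finset (Fin n))
      ⟨j₁, Finset.mem_univ _⟩ (fun j => (v j).natDegree)
    by_cases hz : v j₀ = 0
    · refine ⟨j₁, ?_, hj₁⟩
      have h1 : dd v = 0 := by
        have : dd v = (v j₀).natDegree := h0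
        rw [this, hz, natDegree_zero]
      have h2 : (v j₁).natDegree ≤ dd v :=
        Finset.le_sup (f := fun j => (v j).natDegree) (Finset.mem_univ j₁)
      omega
    · exact ⟨j₀, h0.symm, hz⟩
  have hddlt : ∀ v ∈ S, dd v < D₂ := by
    intro v hv
    obtain ⟨j₀, h0, h1⟩ := hj0 v hv
    have h2 := mem_L.mp ((hSmem v).mp hv).1 j₀
    rw [degree_eq_natDegree h1, h0] at h2
    exact_mod_cast h2
  -- the number of arrays for one vector
  set T : (Fin n → F[X]) → ℕ := fun v =>
    Nat.card {w : Fin l → L F n m // ∀ i, ∑ j, (w i : Fin n → F[X]) j * v j = 0} with hT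
  have hTb : ∀ v ∈ S, T v * Q ^ (l * m) * Q ^ (l * dd v) ≤ Q ^ (l * (n * m)) := by
    intro v hv
    obtain ⟨j₀, h0, h1⟩ := hj0 v hv
    obtain ⟨hvL, b, hb⟩ := (hSmem v).mp hv
    have h2 := card_orth_prim (m := m) (d := dd v) v
      (fun j => Finset.le_sup (f := fun j => (v j).natDegree) (Finset.mem_univ j)) j₀ h0 h1 b hb
      (le_trans (hddlt v hv).le hD)
    have h3 := Nat.pow_le_pow_left h2 l
    rw [mul_pow, ← pow_mul, ← pow_mul] at h3
    have h4 : T v = (Nat.card {w : L F n m // ∑ j, (w : Fin n → F[X]) j * v j = 0}) ^ l :=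
      card_arrays v
    rw [h4]
    calc _ = (Nat.card {w : L F n m // ∑ j, (w : Fin n → F[X]) j * v j = 0}) ^ l *
          Q ^ ((m + dd v) * l) := by
            rw [mul_assoc, ← pow_add]
            congr 2
            ring
      _ ≤ Q ^ (n * m * l) := h3
      _ = Q ^ (l * (n * m)) := by
          congr 1
          ring
  -- union bound
  have hunion : Nat.card {w : Fin l → L F n m // ∃ v ∈ L F n D₂, v ≠ 0 ∧
      ∀ i, ∑ j, (w i : Fin n → F[X]) j * v j = 0} ≤ ∑ v ∈ S, T v := by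
    rw [Nat.card_eq_fintype_card, Fintype.card_subtype]
    have hsub : (Finset.univ.filter (fun w : Fin l → L F n m => ∃ v ∈ L F n D₂, v ≠ 0 ∧
        ∀ i, ∑ j, (w i : Fin n → F[X]) j * v j = 0)) ⊆
        S.biUnion (fun v => Finset.univ.filter (fun w : Fin l → L F n m =>
          ∀ i, ∑ j, (w i : Fin n → F[X]) j * v j = 0)) := by
      intro w hw
      obtain ⟨v, hv, hv0, hv2⟩ := (Finset.mem_filter.mp hw).2
      obtain ⟨v', h1, h2, h3⟩ := prim_exists (fun i => (w i : Fin n → F[X])) v hv hv0 hv2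
      rw [Finset.mem_biUnion]
      exact ⟨v', (hSmem v').mpr ⟨h1, h3⟩, Finset.mem_filter.mpr ⟨Finset.mem_univ _, h2⟩⟩
    refine (Finset.card_le_card hsub).trans (Finset.card_biUnion_le.trans (le_of_eq ?_))
    refine Finset.sum_congr rfl (fun v _ => ?_)
    rw [hT]
    simp only
    rw [Nat.card_eq_fintype_card, Fintype.card_subtype]
  have hlayer : ∀ d ∈ Finset.range D₂,
      (∑ v ∈ S.filter (fun v => dd v = d), T v) * Q ^ (l * m) ≤
        Q ^ (l * (n * m)) * Q ^ n * (Q ^ (n - l)) ^ d := by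
    intro d _
    have h1 : (∑ v ∈ S.filter (fun v => dd v = d), T v) * Q ^ (l * m) * Q ^ (l * d) ≤
        Q ^ (n * (d + 1)) * Q ^ (l * (n * m)) := by
      rw [mul_assoc, Finset.sum_mul]
      have h2 : ∀ v ∈ S.filter (fun v => dd v = d),
          T v * (Q ^ (l * m) * Q ^ (l * d)) ≤ Q ^ (l * (n * m)) := by
        intro v hv
        rw [Finset.mem_filter] at hv
        have h3 := hTb v hv.1
        rw [hv.2] at h3
        rw [← mul_assoc]
        exact h3
      refine (Finset.sum_le_card_nsmul _ _ _ h2).trans ?_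
      rw [smul_eq_mul]
      apply Nat.mul_le_mul_right
      have h4 : S.filter (fun v => dd v = d) ⊆ (finite_L (F := F) n (d + 1)).toFinset := by
        intro v hv
        rw [Finset.mem_filter] at hv
        rw [Set.Finite.mem_toFinset]
        apply mem_L_iff.mpr
        intro j
        rw [← hv.2]
        exact Finset.le_sup (f := fun j => (v j).natDegree) (Finset.mem_univ j)
      refine (Finset.card_le_card h4).trans ?_
      rw [← Nat.card_eq_card_finite_toFinset (finite_L (F := F) n (d + 1))]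
      exact card_L_le n (d + 1)
    have h5 : Q ^ (n * (d + 1)) * Q ^ (l * (n * m)) =
        Q ^ (l * (n * m)) * Q ^ n * (Q ^ (n - l)) ^ d * Q ^ (l * d) := by
      have h6 : n * (d + 1) = n + (n - l) * d + l * d := by
        obtain ⟨r, hr⟩ := Nat.exists_eq_add_of_lt hln
        have : n - l = r + 1 := by omega
        rw [this, hr]
        ring
      rw [h6, pow_add, pow_add, pow_mul Q (n - l) d]
      ring
    rw [h5] at h1
    exact Nat.le_of_mul_le_mul_right h1 (pow_pos (by omega) _)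
  have hsum : (∑ v ∈ S, T v) * Q ^ (l * m) ≤ Q ^ (l * (n * m)) * Q ^ n * Q ^ ((n - l) * D₂) := by
    have h1 : ∑ v ∈ S, T v = ∑ d ∈ Finset.range D₂, ∑ v ∈ S.filter (fun v => dd v = d), T v :=
      (Finset.sum_fiberwise_of_maps_to (fun v hv => Finset.mem_range.mpr (hddlt v hv)) T).symm
    rw [h1, Finset.sum_mul]
    refine (Finset.sum_le_sum hlayer).trans ?_
    rw [← Finset.mul_sum, pow_mul Q (n - l) D₂]
    apply Nat.mul_le_mul_left
    apply geom_le
    calc 2 ≤ Q := hQ2
      _ = Q ^ 1 := (pow_one Q).symm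
      _ ≤ Q ^ (n - l) := Nat.pow_le_pow_right (by omega) (by omega)
  have h8 : 8 ≤ Q ^ 3 := by
    calc 8 = 2 ^ 3 := by norm_num
      _ ≤ Q ^ 3 := Nat.pow_le_pow_left hQ2 3
  have hfinal : (8 * ∑ v ∈ S, T v) * Q ^ (l * m) ≤ Q ^ (l * (n * m)) * Q ^ (l * m) := by
    calc (8 * ∑ v ∈ S, T v) * Q ^ (l * m) = 8 * ((∑ v ∈ S, T v) * Q ^ (l * m)) := by ring
      _ ≤ Q ^ 3 * (Q ^ (l * (n * m)) * Q ^ n * Q ^ ((n - l) * D₂)) := Nat.mul_le_mul h8 hsum
      _ = Q ^ (l * (n * m)) * Q ^ ((n - l) * D₂ + n + 3) := by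
          rw [pow_add, pow_add]
          ring
      _ ≤ Q ^ (l * (n * m)) * Q ^ (l * m) :=
          Nat.mul_le_mul_left _ (Nat.pow_le_pow_right (by omega) h)
  exact (Nat.mul_le_mul_left 8 hunion).trans
    (Nat.le_of_mul_le_mul_right hfinal (pow_pos (by omega) _))

end HG48
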