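import Pool.Agent.helper48.HG.Defs

open Polynomial

namespace HG48

open HF48

variable {F : Type} [Field F] [Fintype F]

omit [Fintype F] in
/-- the linear form of a nonzero vector has a kernel of codimension one -/
theorem hgb_kernel {l : ℕ} (z : Fin l → F[X]) (hz : z ≠ 0) :
    ∃ U : Submodule (RatFunc F) (Fin l → RatFunc F),
      Module.finrank (RatFunc F) U = l - 1 ∧
      ∀ v : Fin l → F[X], ∑ i, z i * v i = 0 → io v ∈ U := by
  classical
  let φ : Module.Dual (RatFunc F) (Fin l → RatFunc F) :=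
    ∑ i, (io z i) • (LinearMap.proj i : (Fin l → RatFunc F) →ₗ[RatFunc F] RatFunc F)
  have hφ : ∀ v : Fin l → RatFunc F, φ v = ∑ i, io z i * v i := by
    intro v
    simp only [φ, LinearMap.coe_sum, Finset.sum_apply, LinearMap.smul_apply,
      LinearMap.proj_apply, smul_eq_mul]
  have hne : φ ≠ 0 := by
    intro h0
    apply hz
    apply io_injective
    rw [io_zero]
    funext i
    have h1 := hφ (Pi.single i 1)
    rw [h0, LinearMap.zero_apply] at h1
    rw [Finset.sum_eq_single i] at h1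
    · rw [Pi.single_eq_same, mul_one] at h1
      exact h1.symm
    · intro j _ hj
      rw [Pi.single_eq_of_ne hj, mul_zero]
    · intro h
      exact absurd (Finset.mem_univ i) h
  refine ⟨LinearMap.ker φ, ?_, ?_⟩
  · have h1 := Module.Dual.finrank_ker_add_one_of_ne_zero hne
    rw [Module.finrank_fin_fun] at h1
    omega
  · intro v hv
    rw [LinearMap.mem_ker, hφ]
    have h1 : ∑ j, io z j * io v j = algebraMap F[X] (RatFunc F) (∑ j, z j * v j) := by
      rw [map_sum]
      refine Finset.sum_congr rfl (fun j _ => ?_)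
      rw [map_mul]
      rfl
    rw [h1, hv, map_zero]

/-- Proof: HF48.card_pow_mem_le with U = kernel of the linear form X ↦ ∑ io z i * X i on Fin l → RatFunc F,
which has finrank l - 1 because z ≠ 0. -/
theorem card_rel {l : ℕ} (a : ℕ) (ha : 0 < a) (N : ℕ) (z : Fin l → F[X]) (hz : z ≠ 0) :
    Nat.card {x : L F l N // ∑ i, z i * (x : Fin l → F[X]) i ^ a = 0} ≤
      a ^ l * (Fintype.card F) ^ (N * (l - 1)) := by
  classical
  obtain ⟨U, hU, hmem⟩ := hgb_kernel z hz
  have h1 := card_pow_mem_le a ha N U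
  rw [hU] at h1
  refine le_trans ?_ h1
  have : Finite (L F l N) := (finite_L (F := F) l N).to_subtype
  have : Finite {u : Fin l → F[X] // u ∈ L F l N ∧ io (fun i => u i ^ a) ∈ U} := by
    refine Finite.of_injective
      (β := L F l N) (fun u => ⟨u.1, u.2.1⟩) ?_
    intro u v huv
    apply Subtype.ext
    exact congrArg (fun w : L F l N => (w : Fin l → F[X])) huv
  refine Nat.card_le_card_of_injective
    (fun x => (⟨x.1.1, x.1.2, hmem _ x.2⟩ :
      {u : Fin l → F[X] // u ∈ L F l N ∧ io (fun i => u i ^ a) ∈ U})) ?_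
  intro x y hxy
  apply Subtype.ext
  apply Subtype.ext
  exact congrArg (fun w : {u : Fin l → F[X] // u ∈ L F l N ∧ io (fun i => u i ^ a) ∈ U} => w.1) hxy

/-- Proof: union bound over z (at most Q^(l D') by card_L_le), card_rel, and hypothesis h. -/
theorem bad_b {l : ℕ} (a : ℕ) (ha : 0 < a) (N D' : ℕ) (hl : 0 < l)
    (h : 8 * a ^ l * (Fintype.card F) ^ (l * D') ≤ (Fintype.card F) ^ N) :
    8 * Nat.card {x : L F l N // ∃ z ∈ L F l D', z ≠ 0 ∧
      ∑ i, z i * (x : Fin l → F[X]) i ^ a = 0} ≤ (Fintype.card F) ^ (l * N) := by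
  classical
  have : Finite (L F l N) := (finite_L (F := F) l N).to_subtype
  have : Finite (L F l D') := (finite_L (F := F) l D').to_subtype
  let Z := {z : L F l D' // (z : Fin l → F[X]) ≠ 0}
  have : Finite Z := Subtype.finite
  have : Fintype Z := Fintype.ofFinite Z
  let β : Z → Type := fun z =>
    {x : L F l N // ∑ i, (z.1 : Fin l → F[X]) i * (x : Fin l → F[X]) i ^ a = 0}
  have : ∀ z, Finite (β z) := fun z => Subtype.finite
  have h1 : Nat.card {x : L F l N // ∃ z ∈ L F l D', z ≠ 0 ∧
      ∑ i, z i * (x : Fin l → F[X]) i ^ a = 0} ≤ Nat.card (Sigma β) := by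
    refine Nat.card_le_card_of_injective
      (fun x => (⟨⟨⟨x.2.choose, x.2.choose_spec.1⟩, x.2.choose_spec.2.1⟩,
        ⟨x.1, x.2.choose_spec.2.2⟩⟩ : Sigma β)) ?_
    intro x y hxy
    apply Subtype.ext
    have h2 := congrArg (fun s : Sigma β => s.2.1) hxy
    exact h2
  have h2 : Nat.card (Sigma β) ≤
      (Fintype.card F) ^ (l * D') * (a ^ l * (Fintype.card F) ^ (N * (l - 1))) := by
    rw [Nat.card_sigma]
    refine (Finset.sum_le_card_nsmul _ _ (a ^ l * (Fintype.card F) ^ (N * (l - 1)))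
      (fun z _ => card_rel a ha N _ z.2)).trans ?_
    rw [smul_eq_mul, Finset.card_univ]
    refine Nat.mul_le_mul_right _ ?_
    rw [← Nat.card_eq_fintype_card]
    refine le_trans ?_ (card_L_le l D')
    exact Nat.card_le_card_of_injective (fun z : Z => z.1) Subtype.val_injective
  calc 8 * Nat.card {x : L F l N // ∃ z ∈ L F l D', z ≠ 0 ∧
        ∑ i, z i * (x : Fin l → F[X]) i ^ a = 0}
      ≤ 8 * ((Fintype.card F) ^ (l * D') * (a ^ l * (Fintype.card F) ^ (N * (l - 1)))) :=
        Nat.mul_le_mul_left _ (h1.trans h2)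
    _ = (8 * a ^ l * (Fintype.card F) ^ (l * D')) * (Fintype.card F) ^ (N * (l - 1)) := by ring
    _ ≤ (Fintype.card F) ^ N * (Fintype.card F) ^ (N * (l - 1)) := Nat.mul_le_mul_right _ h
    _ = (Fintype.card F) ^ (l * N) := by
        rw [← pow_add]
        congr 1
        obtain ⟨k, rfl⟩ : ∃ k, l = k + 1 := ⟨l - 1, by omega⟩
        rw [Nat.add_sub_cancel]
        ring

end HG48
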