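import Pool.Agent.helper48.HG.Defs

open Polynomial

namespace HG48

open HF48

variable {F : Type} [Field F] [Fintype F]

omit [Fintype F] in
/-- the column `j` of the matrix with rows `M i` -/
theorem col_mem_L {l n m : ℕ} (M : Fin (l + 1) → L F n m) (j : Fin n) :
    (fun i => (M i : Fin n → F[X]) j) ∈ L F (l + 1) m := by
  rw [mem_L]
  intro i
  exact mem_L.mp (M i).2 j

/-- the space spanned by the columns -/
noncomputable def Wcol {l n m : ℕ} (M : Fin (l + 1) → L F n m) :
    Submodule (RatFunc F) (Fin (l + 1) → RatFunc F) :=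
  Submodule.span (RatFunc F) (Set.range (fun j => io (fun i => (M i : Fin n → F[X]) j)))

omit [Fintype F] in
theorem col_mem_V {l n m : ℕ} (M : Fin (l + 1) → L F n m) (j : Fin n) :
    (fun i => (M i : Fin n → F[X]) j) ∈ V m (Wcol M) :=
  ⟨col_mem_L M j, Submodule.subset_span ⟨j, rfl⟩⟩

theorem Wcol_mem {l n m : ℕ} (M : Fin (l + 1) → L F n m) : Wcol M ∈ WW F (l + 1) m := by
  rw [mem_WW]
  apply le_antisymm
  · exact low_le m (Wcol M)
  · unfold Wcol
    apply Submodule.span_le.mpr
    rintro _ ⟨j, rfl⟩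
    exact Submodule.subset_span ⟨_, col_mem_V M j, rfl⟩

omit [Fintype F] in
theorem Wcol_finrank {l n m : ℕ} (M : Fin (l + 1) → L F n m)
    (hM : n ≤ l + Module.finrank (RatFunc F) (orth (fun i => (M i : Fin n → F[X])))) :
    Module.finrank (RatFunc F) (Wcol M) ≤ l := by
  set A : Matrix (Fin (l + 1)) (Fin n) (RatFunc F) :=
    Matrix.of (fun i j => io (M i : Fin n → F[X]) j) with hA
  have h1 : LinearMap.range A.mulVecLin = Wcol M := by
    rw [Matrix.range_mulVecLin]
    rfl
  have h2 := LinearMap.finrank_range_add_finrank_ker A.mulVecLin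
  rw [h1, Module.finrank_fin_fun] at h2
  have h3 : orth (fun i => (M i : Fin n → F[X])) = LinearMap.ker A.mulVecLin := rfl
  rw [h3] at hM
  omega

/-- the matrices in question -/
def Tm (F : Type) [Field F] (l n m : ℕ) : Type :=
  {M : Fin (l + 1) → L F n m //
      n ≤ l + Module.finrank (RatFunc F) (orth (fun i => (M i : Fin n → F[X])))}

instance finTm (l n m : ℕ) : Finite (Tm F l n m) := by
  have h1 : Finite (L F n m) := (finite_L n m).to_subtype
  unfold Tm
  infer_instance

theorem card_Tm_fiber (l n m : ℕ) (W : Submodule (RatFunc F) (Fin (l + 1) → RatFunc F)) :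
    Nat.card {M : Tm F l n m // Wcol M.1 = W} ≤
      (Fintype.card F ^ Module.finrank F (V m W)) ^ n := by
  have hfin : Finite (V m W) := ((finite_L (l + 1) m).subset (V_le_L W)).to_subtype
  have h1 : Nat.card {M : Tm F l n m // Wcol M.1 = W} ≤ Nat.card (Fin n → V m W) := by
    apply Nat.card_le_card_of_injective
      (fun M => fun j => (⟨fun i => (M.1.1 i : Fin n → F[X]) j, by
        have := col_mem_V M.1.1 j
        rwa [M.2] at this⟩ : V m W))
    intro M N h
    apply Subtype.ext
    apply Subtype.ext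
    funext i
    apply Subtype.ext
    funext j
    exact congrFun (congrArg Subtype.val (congrFun h j)) i
  refine h1.trans (le_of_eq ?_)
  rw [Nat.card_fun, Nat.card_eq_fintype_card (α := Fin n), Fintype.card_fin,
    Module.natCard_eq_pow_finrank (K := F), Nat.card_eq_fintype_card]

open Classical in
/-- the spaces of dimension at most l -/
noncomputable def WWl (F : Type) [Field F] [Fintype F] (l m : ℕ) :
    Finset (Submodule (RatFunc F) (Fin (l + 1) → RatFunc F)) :=
  (WW F (l + 1) m).filter (fun W => Module.finrank (RatFunc F) W ≤ l)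

theorem mem_WWl {l m : ℕ} {W : Submodule (RatFunc F) (Fin (l + 1) → RatFunc F)} :
    W ∈ WWl F l m ↔ W ∈ WW F (l + 1) m ∧ Module.finrank (RatFunc F) W ≤ l := by
  classical
  unfold WWl
  rw [Finset.mem_filter]

theorem card_Tm_le (l n m : ℕ) : Nat.card (Tm F l n m) ≤
    ∑ W ∈ WWl F l m,
      (Fintype.card F ^ Module.finrank F (V m W)) ^ n := by
  classical
  have hft : Fintype (Tm F l n m) := Fintype.ofFinite _
  rw [Nat.card_eq_fintype_card, ← Finset.card_univ,
    Finset.card_eq_sum_card_fiberwise (f := fun M : Tm F l n m => Wcol M.1)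
      (t := WWl F l m)
      (fun M _ => by
        rw [Finset.mem_coe, mem_WWl]
        exact ⟨Wcol_mem M.1, Wcol_finrank M.1 M.2⟩)]
  refine Finset.sum_le_sum (fun W _ => ?_)
  have h1 := card_Tm_fiber l n m W
  rwa [Nat.card_eq_fintype_card, Fintype.card_subtype] at h1

/-- Proof: the matrix M (rows M i, entries polynomials of degree below m, l + 1 rows, n columns) has rank
≤ l by rank-nullity (orth = kernel of mulVecLin), so the K-span W of its columns io (fun i => M i j),
which are in L F (l+1) m, has finrank ≤ l (Matrix.rank_eq_finrank_span_cols or range_mulVecLin), and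
W is in WW F (l+1) m (as in HF48.Wof_mem). For a fixed W there are at most (card (V m W))^n =
Q^(n finrank V m W) matrices with all columns in V m W. Sum over W with finrank W ≤ l: it is
Psi F (l+1) β m with β = Q^n, times β^(m l) = Q^(l n m) (HF48.Psi_bound, Q^(l+1) < β since l + 1 < n). -/
theorem sum_T {l n : ℕ} (h : l + 1 < n) : ∃ c : ℝ, 0 < c ∧ ∀ m : ℕ,
    (Nat.card {M : Fin (l + 1) → L F n m //
      n ≤ l + Module.finrank (RatFunc F) (orth (fun i => (M i : Fin n → F[X])))} : ℝ) ≤
      c * (Fintype.card F : ℝ) ^ (l * (n * m)) := by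
  classical
  have hQ2 : (1 : ℝ) < Fintype.card F := by exact_mod_cast Fintype.one_lt_card
  set β : ℝ := (Fintype.card F : ℝ) ^ n with hβ
  have hβ0 : 0 < β := by positivity
  have hβ1 : 1 ≤ β := one_le_pow₀ hQ2.le
  have hβQ : (Fintype.card F : ℝ) ^ (l + 1) < β := pow_lt_pow_right₀ hQ2 h
  obtain ⟨C, hC0, hC⟩ := Psi_bound (F := F) (n := l + 1) β hβQ
  refine ⟨C, hC0, ?_⟩
  intro m
  have h1 : (Nat.card (Tm F l n m) : ℝ) ≤
      ∑ W ∈ WWl F l m,
        ((Fintype.card F : ℝ) ^ Module.finrank F (V m W)) ^ n := by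
    have := card_Tm_le (F := F) l n m
    exact_mod_cast this
  refine h1.trans ?_
  have h2 : ∀ W ∈ WWl F l m,
      ((Fintype.card F : ℝ) ^ Module.finrank F (V m W)) ^ n ≤
        β ^ (m * l) * (β ^ (Module.finrank F (V m W)) /
          β ^ (m * Module.finrank (RatFunc F) W)) := by
    intro W hW
    have hr : Module.finrank (RatFunc F) W ≤ l := (mem_WWl.mp hW).2
    have h3 : β ^ (m * Module.finrank (RatFunc F) W) ≤ β ^ (m * l) :=
      pow_le_pow_right₀ hβ1 (Nat.mul_le_mul_left m hr)
    have h4 : ((Fintype.card F : ℝ) ^ Module.finrank F (V m W)) ^ n =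
        β ^ Module.finrank F (V m W) := by
      rw [hβ, ← pow_mul, ← pow_mul, mul_comm]
    rw [h4, ← mul_div_assoc, le_div_iff₀ (by positivity), mul_comm (β ^ (m * l))]
    exact mul_le_mul_of_nonneg_left h3 (by positivity)
  refine (Finset.sum_le_sum h2).trans ?_
  rw [← Finset.mul_sum]
  have h5 : ∑ W ∈ WWl F l m,
      β ^ (Module.finrank F (V m W)) / β ^ (m * Module.finrank (RatFunc F) W) ≤ C :=
    (Finset.sum_le_sum_of_subset_of_nonneg (fun W hW => (mem_WWl.mp hW).1)
      (fun W _ _ => by positivity)).trans (hC m)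
  calc β ^ (m * l) * ∑ W ∈ WWl F l m,
        β ^ (Module.finrank F (V m W)) / β ^ (m * Module.finrank (RatFunc F) W)
      ≤ β ^ (m * l) * C := mul_le_mul_of_nonneg_left h5 (by positivity)
    _ = C * (Fintype.card F : ℝ) ^ (l * (n * m)) := by
        rw [hβ, ← pow_mul, mul_comm]
        congr 2
        ring

end HG48
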