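import Pool.Agent.helper48.HG.C

open Polynomial

namespace HG48

open HF48

variable {F : Type} [Field F] [Fintype F]

theorem h28_cons {l n m : ℕ} (w : Fin l → L F n m) (u : L F n m) :
    (fun i => ((Fin.cons u w : Fin (l + 1) → L F n m) i : Fin n → F[X])) =
      (Fin.cons (u : Fin n → F[X]) (fun i => (w i : Fin n → F[X])) :
          Fin (l + 1) → Fin n → F[X]) := by
  funext i
  refine Fin.cases ?_ (fun j => ?_) i
  · simp
  · simp

/-- Proof: Markov from sum_T: the number of pairs (w, u) with n ≤ l + finrank orth (Fin.cons u w) is at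
most c Q^(l n m) (bijection (w, u) ↦ Fin.cons u w; u ∈ L F n m), so at most Q^(l n m) / 8 of the w have
more than B = ⌈8 c⌉ such u. -/
theorem bad_c {l n : ℕ} (h : l + 1 < n) : ∃ B : ℕ, 0 < B ∧ ∀ m : ℕ,
    8 * Nat.card {w : Fin l → L F n m // B < Nat.card {u : L F n m //
      n ≤ l + Module.finrank (RatFunc F)
        (orth (Fin.cons (u : Fin n → F[X]) (fun i => (w i : Fin n → F[X])) :
          Fin (l + 1) → Fin n → F[X]))}} ≤ (Fintype.card F) ^ (l * (n * m)) := by
  classical
  obtain ⟨c, hc, hT⟩ := sum_T (F := F) h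
  refine ⟨⌈8 * c⌉₊, Nat.ceil_pos.2 (by positivity), fun m => ?_⟩
  set B : ℕ := ⌈8 * c⌉₊ with hB
  have hBc : 8 * c ≤ (B : ℝ) := Nat.le_ceil _
  have hfd : Module.Finite F (L F n m) := finite_of_le (L F n m) le_rfl
  have hfin : Finite (L F n m) := Module.finite_of_finite F
  let Q : (Fin l → L F n m) → L F n m → Prop := fun w u =>
    n ≤ l + Module.finrank (RatFunc F)
        (orth (Fin.cons (u : Fin n → F[X]) (fun i => (w i : Fin n → F[X])) :
          Fin (l + 1) → Fin n → F[X]))
  let S : Type := {w : Fin l → L F n m // B < Nat.card {u : L F n m // Q w u}}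
  let T : Type := {M : Fin (l + 1) → L F n m //
      n ≤ l + Module.finrank (RatFunc F) (orth (fun i => (M i : Fin n → F[X])))}
  have hTf : Finite T := Subtype.finite
  have hSf : Finite S := Subtype.finite
  letI : Fintype S := Fintype.ofFinite S
  let f : (Σ w : S, {u : L F n m // Q w.1 u}) → T := fun z =>
    ⟨Fin.cons z.2.1 z.1.1, by
      have h1 := z.2.2
      simp only [Q] at h1
      rw [h28_cons]
      exact h1⟩
  have hf : Function.Injective f := by
    rintro ⟨⟨w, hw⟩, ⟨u, hu⟩⟩ ⟨⟨w', hw'⟩, ⟨u', hu'⟩⟩ he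
    have h1 : (Fin.cons u w : Fin (l + 1) → L F n m) = Fin.cons u' w' := congrArg Subtype.val he
    obtain ⟨h2, h3⟩ := Fin.cons_inj.1 h1
    subst h2
    subst h3
    rfl
  have h1 : Nat.card (Σ w : S, {u : L F n m // Q w.1 u}) ≤ Nat.card T :=
    Nat.card_le_card_of_injective f hf
  rw [Nat.card_sigma] at h1
  have h2 : Nat.card S * B ≤ ∑ w : S, Nat.card {u : L F n m // Q w.1 u} := by
    rw [Nat.card_eq_fintype_card, ← Finset.card_univ, ← smul_eq_mul]
    exact Finset.card_nsmul_le_sum _ _ _ (fun w _ => w.2.le)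
  have h3 : (Nat.card S : ℝ) * B ≤ c * (Fintype.card F : ℝ) ^ (l * (n * m)) := by
    refine le_trans ?_ (hT m)
    exact_mod_cast h2.trans h1
  have h4 : c * (8 * (Nat.card S : ℝ)) ≤ c * (Fintype.card F : ℝ) ^ (l * (n * m)) := by
    refine le_trans ?_ h3
    have h5 : (0 : ℝ) ≤ Nat.card S := Nat.cast_nonneg _
    nlinarith
  have h5 : 8 * (Nat.card S : ℝ) ≤ (Fintype.card F : ℝ) ^ (l * (n * m)) :=
    le_of_mul_le_mul_left h4 hc
  have h6 : 8 * Nat.card S ≤ (Fintype.card F) ^ (l * (n * m)) := by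
    exact_mod_cast h5
  exact h6

end HG48
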