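import Pool.Agent.helper48.HG.Defs

open Polynomial

namespace HG48

open HF48

variable {F : Type} [Field F]

theorem finrank_V_add {n : ℕ} (W : Submodule (RatFunc F) (Fin n → RatFunc F)) (D j : ℕ) :
    Module.finrank F (V (D + j) W) ≤
      Module.finrank F (V D W) + j * Module.finrank (RatFunc F) W := by
  induction j with
  | zero => simp
  | succ j ih =>
    have h1 := finrank_V_succ (D + j) W
    have h2 : D + (j + 1) = D + j + 1 := by ring
    rw [h2]
    calc _ ≤ _ := h1
      _ ≤ _ := by
        have h3 : (j + 1) * Module.finrank (RatFunc F) W =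
            j * Module.finrank (RatFunc F) W + Module.finrank (RatFunc F) W := by ring
        omega

/-- the F-linear map v ↦ (∑ j, w i j * v j)_i -/
noncomputable def pm {ι : Type} {n : ℕ} (w : ι → Fin n → F[X]) :
    (Fin n → F[X]) →ₗ[F] (ι → F[X]) :=
  LinearMap.pi (fun i => ∑ j, (LinearMap.mulLeft F (w i j)).comp (LinearMap.proj j))

theorem pm_apply {ι : Type} {n : ℕ} (w : ι → Fin n → F[X]) (v : Fin n → F[X]) (i : ι) :
    pm w v i = ∑ j, w i j * v j := by
  unfold pm
  simp [LinearMap.sum_apply]

theorem mem_degreeLT_mul {m D : ℕ} {f g : F[X]} (hf : f ∈ degreeLT F m) (hg : g ∈ degreeLT F D) :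
    f * g ∈ degreeLT F (m + D) := by
  rw [mem_degreeLT] at hf hg ⊢
  by_cases h1 : f = 0
  · rw [h1, zero_mul, degree_zero]
    exact WithBot.bot_lt_coe _
  by_cases h2 : g = 0
  · rw [h2, mul_zero, degree_zero]
    exact WithBot.bot_lt_coe _
  rw [degree_eq_natDegree h1] at hf
  rw [degree_eq_natDegree h2] at hg
  rw [degree_eq_natDegree (mul_ne_zero h1 h2), natDegree_mul h1 h2]
  have h3 : f.natDegree < m := by exact_mod_cast hf
  have h4 : g.natDegree < D := by exact_mod_cast hg
  exact_mod_cast (by omega : f.natDegree + g.natDegree < m + D)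

theorem pm_mem {l n m D : ℕ} (w : Fin l → Fin n → F[X]) (hw : ∀ i, w i ∈ L F n m)
    (v : Fin n → F[X]) (hv : v ∈ L F n D) : pm w v ∈ L F l (m + D) := by
  rw [mem_L]
  intro i
  rw [pm_apply, ← mem_degreeLT]
  refine Submodule.sum_mem _ (fun j _ => ?_)
  exact mem_degreeLT_mul (mem_degreeLT.mpr (mem_L.mp (hw i) j)) (mem_degreeLT.mpr (mem_L.mp hv j))

variable [Fintype F]

theorem finrank_L (n d : ℕ) : Module.finrank F (L F n d) = n * d := by
  haveI : Module.Finite F (L F n d) := finite_of_le (L F n d) le_rfl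
  have h1 : Nat.card (L F n d) = Fintype.card F ^ (n * d) :=
    le_antisymm (card_L_le n d) (card_L_ge n d)
  have h2 : Nat.card (L F n d) = Nat.card F ^ Module.finrank F (L F n d) :=
    Module.natCard_eq_pow_finrank
  rw [h1, Nat.card_eq_fintype_card] at h2
  exact (Nat.pow_right_injective Fintype.one_lt_card h2).symm

theorem siegel {l n m D : ℕ} (w : Fin l → Fin n → F[X]) (hw : ∀ i, w i ∈ L F n m) :
    n * D ≤ Module.finrank F (V D (orth w)) + l * (m + D) := by
  haveI : Module.Finite F (L F n D) := finite_of_le (L F n D) le_rfl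
  haveI : Module.Finite F (L F l (m + D)) := finite_of_le (L F l (m + D)) le_rfl
  have h1 := LinearMap.finrank_range_add_finrank_ker ((pm w).domRestrict (L F n D))
  rw [finrank_L] at h1
  have h2 : Module.finrank F (LinearMap.range ((pm w).domRestrict (L F n D))) ≤ l * (m + D) := by
    rw [← finrank_L (F := F) l (m + D)]
    apply Submodule.finrank_mono
    rintro y ⟨v, rfl⟩
    exact pm_mem w hw _ v.2
  have h3 : Module.finrank F (LinearMap.ker ((pm w).domRestrict (L F n D))) ≤
      Module.finrank F (V D (orth w)) := by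
    haveI : Module.Finite F (V D (orth w)) := finite_of_le (V D (orth w)) (V_le_L _)
    have h4 : Submodule.map (Submodule.subtype (L F n D))
        (LinearMap.ker ((pm w).domRestrict (L F n D))) ≤ V D (orth w) := by
      rintro y ⟨x, hx, rfl⟩
      refine ⟨x.2, io_mem_orth.mpr (fun i => ?_)⟩
      have h5 : (pm w) (x : Fin n → F[X]) = 0 := LinearMap.mem_ker.mp hx
      have h6 := congrFun h5 i
      rw [pm_apply] at h6
      exact h6
    have h5 := Submodule.finrank_mono h4
    have h6 := (Submodule.equivMapOfInjective (Submodule.subtype (L F n D))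
      (Submodule.injective_subtype _)
      (LinearMap.ker ((pm w).domRestrict (L F n D)))).finrank_eq
    rw [h6]
    exact h5
  omega

/-- two tuples with the same digit sums, one of them without small orthogonal vectors, the other
without small relations: the digits span a space of rank at most l -/
theorem rank_key {l n m a D₂ t : ℕ} (x y : Fin l → F[X]) (ξ υ : Fin l → Fin n → F[X])
    (hξ : ∀ i, ξ i ∈ L F n m) (hυ : ∀ i, υ i ∈ L F n m)
    (hφ : ∀ j, ∑ i, x i ^ a * ξ i j = ∑ i, y i ^ a * υ i j)
    (ha : ∀ v ∈ L F n D₂, (∀ i, ∑ j, υ i j * v j = 0) → v = 0)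
    (hb : ∀ z ∈ L F l (m + (D₂ + t)), ∑ i, z i * x i ^ a = 0 → z = 0)
    (ht : l * m + l * D₂ < n * D₂ + t) (i₀ : Fin l) :
    n ≤ l + Module.finrank (RatFunc F)
      (orth (Fin.cons (ξ i₀) υ : Fin (l + 1) → Fin n → F[X])) := by
  set M : Fin l ⊕ Fin l → Fin n → F[X] := Sum.elim ξ υ with hM
  have hMle : orth M ≤ orth (Fin.cons (ξ i₀) υ : Fin (l + 1) → Fin n → F[X]) := by
    intro v hv
    rw [mem_orth] at hv ⊢
    intro i
    refine Fin.cases ?_ (fun k => ?_) i
    · exact hv (Sum.inl i₀)
    · exact hv (Sum.inr k)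
  have h1 : Module.finrank (RatFunc F) (orth M) ≤ Module.finrank (RatFunc F)
      (orth (Fin.cons (ξ i₀) υ : Fin (l + 1) → Fin n → F[X])) := Submodule.finrank_mono hMle
  by_contra hcon
  have h2 : l + Module.finrank (RatFunc F) (orth M) + 1 ≤ n := by omega
  have h3 := siegel (D := D₂ + t) υ hυ
  have h4 : V (D₂ + t) (orth υ) ≤ V (D₂ + t) (orth M) := by
    intro v hv
    refine ⟨hv.1, io_mem_orth.mpr ?_⟩
    have hv2 := io_mem_orth.mp hv.2
    have h5 : pm ξ v = 0 := by
      apply hb _ (pm_mem ξ hξ v hv.1)
      calc ∑ i, pm ξ v i * x i ^ a = ∑ i, ∑ j, v j * (x i ^ a * ξ i j) := by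
            refine Finset.sum_congr rfl (fun i _ => ?_)
            rw [pm_apply, Finset.sum_mul]
            refine Finset.sum_congr rfl (fun j _ => ?_)
            ring
        _ = ∑ j, v j * ∑ i, x i ^ a * ξ i j := by
            rw [Finset.sum_comm]
            refine Finset.sum_congr rfl (fun j _ => ?_)
            rw [Finset.mul_sum]
        _ = ∑ j, v j * ∑ i, y i ^ a * υ i j := by
            refine Finset.sum_congr rfl (fun j _ => ?_)
            rw [hφ j]
        _ = ∑ i, y i ^ a * ∑ j, υ i j * v j := by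
            rw [show (∑ i, y i ^ a * ∑ j, υ i j * v j) = ∑ i, ∑ j, v j * (y i ^ a * υ i j) by
              refine Finset.sum_congr rfl (fun i _ => ?_)
              rw [Finset.mul_sum]
              refine Finset.sum_congr rfl (fun j _ => ?_)
              ring]
            rw [Finset.sum_comm]
            refine Finset.sum_congr rfl (fun j _ => ?_)
            rw [Finset.mul_sum]
        _ = 0 := by
            refine Finset.sum_eq_zero (fun i _ => ?_)
            rw [hv2 i, mul_zero]
    intro i
    rcases i with i | i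
    · have h6 := congrFun h5 i
      rw [pm_apply] at h6
      exact h6
    · exact hv2 i
  haveI : Module.Finite F (V (D₂ + t) (orth M)) := finite_of_le (V (D₂ + t) (orth M)) (V_le_L _)
  have h5 := Submodule.finrank_mono h4
  have h6 := finrank_V_add (orth M) D₂ t
  have h7 : Module.finrank F (V D₂ (orth M)) = 0 := by
    have h8 : V D₂ (orth M) = ⊥ := by
      rw [eq_bot_iff]
      intro v hv
      rw [Submodule.mem_bot]
      exact ha v hv.1 (fun i => (io_mem_orth.mp hv.2) (Sum.inr i))
    rw [h8, finrank_bot]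
  rw [h7, zero_add] at h6
  have h8 : t * Module.finrank (RatFunc F) (orth M) + t * (l + 1) ≤ t * n := by
    rw [← mul_add]
    apply Nat.mul_le_mul_left
    omega
  have h9 : n * (D₂ + t) ≤ t * Module.finrank (RatFunc F) (orth M) + l * (m + (D₂ + t)) :=
    h3.trans (Nat.add_le_add_right (h5.trans h6) _)
  have e1 : n * (D₂ + t) = n * D₂ + t * n := by ring
  have e2 : l * (m + (D₂ + t)) = l * m + l * D₂ + t * l := by ring
  have e3 : t * (l + 1) = t * l + t := by ring
  omega

end HG48
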