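import Pool.Agent.helper48.HF.E3

open Polynomial

namespace HG48

open HF48

variable {F : Type} [Field F]

/-- the vectors of rational functions orthogonal to all rows `w i` -/
noncomputable def orth {ι : Type} {n : ℕ} (w : ι → Fin n → F[X]) :
    Submodule (RatFunc F) (Fin n → RatFunc F) :=
  LinearMap.ker (Matrix.mulVecLin (Matrix.of (fun i j => io (w i) j)))

theorem mem_orth {ι : Type} {n : ℕ} {w : ι → Fin n → F[X]} {v : Fin n → RatFunc F} :
    v ∈ orth w ↔ ∀ i, ∑ j, io (w i) j * v j = 0 := by
  unfold orth
  rw [LinearMap.mem_ker, Matrix.mulVecLin_apply]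
  constructor
  · intro h i
    exact congrFun h i
  · intro h
    funext i
    exact h i

theorem io_mem_orth {ι : Type} {n : ℕ} {w : ι → Fin n → F[X]} {v : Fin n → F[X]} :
    io v ∈ orth w ↔ ∀ i, ∑ j, w i j * v j = 0 := by
  rw [mem_orth]
  refine forall_congr' (fun i => ?_)
  have h1 : ∑ j, io (w i) j * io v j = algebraMap F[X] (RatFunc F) (∑ j, w i j * v j) := by
    rw [map_sum]
    refine Finset.sum_congr rfl (fun j _ => ?_)
    rw [map_mul]
    rfl
  rw [h1]
  constructor
  · intro h
    apply IsFractionRing.injective F[X] (RatFunc F)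
    rw [h, map_zero]
  · intro h
    rw [h, map_zero]

end HG48
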