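import Pool.Agent.helper48.HG.D
import Pool.Agent.helper48.HG.A3
import Pool.Agent.helper48.HG.B
import Pool.Agent.helper48.HG.C2

open Polynomial

namespace HG48

open HF48

variable {F : Type} [Field F]

theorem digit_sum (p e a l : ℕ) [Fact p.Prime] [CharP F p] (x : Fin l → F[X])
    (ξ : Fin (p ^ e) → Fin l → F[X])
    (hξ : ∀ i, x i = ∑ j : Fin (p ^ e), X ^ (j : ℕ) * (ξ j i) ^ (p ^ e)) :
    ∑ j : Fin (p ^ e), X ^ (j : ℕ) * (∑ i, x i ^ a * ξ j i) ^ (p ^ e) =
      ∑ i, x i ^ (a * p ^ e + 1) := by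
  calc ∑ j : Fin (p ^ e), X ^ (j : ℕ) * (∑ i, x i ^ a * ξ j i) ^ (p ^ e)
      = ∑ j : Fin (p ^ e), ∑ i, x i ^ (a * p ^ e) * (X ^ (j : ℕ) * (ξ j i) ^ (p ^ e)) := by
        refine Finset.sum_congr rfl (fun j _ => ?_)
        rw [sum_pow_char_pow, Finset.mul_sum]
        refine Finset.sum_congr rfl (fun i _ => ?_)
        rw [mul_pow, ← pow_mul]
        ring
    _ = ∑ i, ∑ j : Fin (p ^ e), x i ^ (a * p ^ e) * (X ^ (j : ℕ) * (ξ j i) ^ (p ^ e)) :=
        Finset.sum_comm
    _ = ∑ i, x i ^ (a * p ^ e + 1) := by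
        refine Finset.sum_congr rfl (fun i _ => ?_)
        rw [← Finset.mul_sum, ← hξ i, pow_succ]

theorem digits_eq [Fintype F] (p e a l : ℕ) [Fact p.Prime] [CharP F p] (x y : Fin l → F[X])
    (ξ υ : Fin (p ^ e) → Fin l → F[X])
    (hξ : ∀ i, x i = ∑ j : Fin (p ^ e), X ^ (j : ℕ) * (ξ j i) ^ (p ^ e))
    (hυ : ∀ i, y i = ∑ j : Fin (p ^ e), X ^ (j : ℕ) * (υ j i) ^ (p ^ e))
    (h : ∑ i, x i ^ (a * p ^ e + 1) = ∑ i, y i ^ (a * p ^ e + 1)) (j : Fin (p ^ e)) :
    ∑ i, x i ^ a * ξ j i = ∑ i, y i ^ a * υ j i := by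
  have h1 := dig_unique p e (fun j => (∑ i, x i ^ a * ξ j i) - ∑ i, y i ^ a * υ j i) (by
    have h2 : ∀ j : Fin (p ^ e), X ^ (j : ℕ) *
        ((∑ i, x i ^ a * ξ j i) - ∑ i, y i ^ a * υ j i) ^ (p ^ e) =
        X ^ (j : ℕ) * (∑ i, x i ^ a * ξ j i) ^ (p ^ e) -
          X ^ (j : ℕ) * (∑ i, y i ^ a * υ j i) ^ (p ^ e) := by
      intro j
      rw [sub_pow_char_pow, mul_sub]
    rw [Finset.sum_congr rfl (fun j _ => h2 j), Finset.sum_sub_distrib,
      digit_sum p e a l x ξ hξ, digit_sum p e a l y υ hυ, h, sub_self]) j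
  exact sub_eq_zero.mp h1

variable [Fintype F]

section
variable (p e l m : ℕ) [Fact p.Prime] [CharP F p]

/-- the digits as an array of rows -/
noncomputable def rows (x : L F l (p ^ e * m)) : Fin l → L F (p ^ e) m :=
  fun i => ⟨fun j => dg p e l m x j i, mem_L.mpr (fun j => mem_L.mp (dg_mem p e l m x j) i)⟩

theorem rows_inj {x y : L F l (p ^ e * m)} (h : rows p e l m x = rows p e l m y) : x = y := by
  apply dg_inj p e l m
  funext j i
  have h1 := congrFun h i
  have h2 := congrArg (fun z : L F (p ^ e) m => (z : Fin (p ^ e) → F[X]) j) h1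
  exact h2

end

/-- the numerical facts for the parameters -/
theorem params {l n : ℕ} (hl0 : 0 < l) (hl : 2 * l < n) (A : ℕ) :
    ∃ m₀ : ℕ, ∀ m, m₀ ≤ m → ∃ D₂ : ℕ, (n - l) * D₂ + n + 3 ≤ l * m ∧ D₂ ≤ m ∧
      l * m + l * D₂ < n * D₂ + (2 * n + 4) ∧ A + l * (m + (D₂ + (2 * n + 4))) ≤ n * m := by
  refine ⟨n * (A + l * (2 * n + 4)) + n + 3, fun m hm => ?_⟩
  obtain ⟨r, hr⟩ := Nat.exists_eq_add_of_lt (show l < n by omega)
  have hnl : n - l = r + 1 := by omega
  have hlm : n + 3 ≤ l * m := by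
    calc n + 3 ≤ m := by omega
      _ = 1 * m := (one_mul m).symm
      _ ≤ l * m := Nat.mul_le_mul_right m hl0
  set D₂ : ℕ := (l * m - (n + 3)) / (r + 1) with hD
  have h1 : (r + 1) * D₂ ≤ l * m - (n + 3) := Nat.mul_div_le _ _
  have h2 : l * m - (n + 3) < (r + 1) * (D₂ + 1) := Nat.lt_mul_div_succ _ (by omega)
  have e1 : n * D₂ = l * D₂ + (r + 1) * D₂ := by
    have : n = l + (r + 1) := by omega
    rw [this]; ring
  have e2 : (r + 1) * (D₂ + 1) = (r + 1) * D₂ + (r + 1) := by ring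
  refine ⟨D₂, ?_, ?_, ?_, ?_⟩
  · rw [hnl]; omega
  · by_contra hc
    have h3 : (r + 1) * (m + 1) ≤ (r + 1) * D₂ := Nat.mul_le_mul_left _ (by omega)
    have h4 : l * m ≤ (r + 1) * m := Nat.mul_le_mul_right m (by omega)
    have e3 : (r + 1) * (m + 1) = (r + 1) * m + (r + 1) := by ring
    omega
  · omega
  · have h5 : (r + 1) * (A + l * (m + (D₂ + (2 * n + 4)))) ≤ (r + 1) * (n * m) := by
      have e4 : (r + 1) * (A + l * (m + (D₂ + (2 * n + 4)))) =
          (r + 1) * (A + l * (2 * n + 4)) + (r + 1) * l * m + l * ((r + 1) * D₂) := by ring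
      have h6 : l * ((r + 1) * D₂) ≤ l * (l * m) := Nat.mul_le_mul_left l (h1.trans (Nat.sub_le _ _))
      have h7 : (r + 1) * (A + l * (2 * n + 4)) ≤ m := by
        calc (r + 1) * (A + l * (2 * n + 4)) ≤ n * (A + l * (2 * n + 4)) :=
              Nat.mul_le_mul_right _ (by omega)
          _ ≤ m := by omega
      have h8 : (r + 1) * l * m + l * (l * m) = l * n * m := by
        have : n = l + (r + 1) := by omega
        rw [this]; ring
      have h9 : m + l * n * m ≤ (r + 1) * (n * m) := by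
        have h10 : 1 + l * n ≤ (r + 1) * n := by
          have h11 : (l + 1) * n ≤ (r + 1) * n := Nat.mul_le_mul_right n (by omega)
          have h12 : (l + 1) * n = l * n + n := by ring
          omega
        calc m + l * n * m = (1 + l * n) * m := by ring
          _ ≤ ((r + 1) * n) * m := Nat.mul_le_mul_right m h10
          _ = (r + 1) * (n * m) := by ring
      omega
    exact Nat.le_of_mul_le_mul_left h5 (by omega)

open Classical in
theorem vals_bound (p e a l : ℕ) [Fact p.Prime] [CharP F p] (ha : 0 < a) (hl0 : 0 < l)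
    (hl : 2 * l < p ^ e) : ∃ K : ℕ, 0 < K ∧ ∃ m₀ : ℕ, ∀ m, m₀ ≤ m →
      (Fintype.card F) ^ (l * (p ^ e * m)) ≤ K * (((finite_L (F := F) l (p ^ e * m)).toFinset.image
        (fun x => ∑ i, x i ^ (a * p ^ e + 1))).card) := by
  set n : ℕ := p ^ e with hn
  set Q : ℕ := Fintype.card F with hQ
  have hQ2 : 2 ≤ Q := Fintype.one_lt_card
  obtain ⟨B, hB0, hB⟩ := bad_c (F := F) (l := l) (n := n) (by omega)
  obtain ⟨m₀, hm₀⟩ := params hl0 hl (8 * a ^ l)
  refine ⟨8 * B ^ l, by positivity, m₀, fun m hm => ?_⟩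
  obtain ⟨D₂, hp1, hp2, hp3, hp4⟩ := hm₀ m hm
  set t : ℕ := 2 * n + 4 with ht
  have hfin1 : Finite (L F l (n * m)) := (finite_L l (n * m)).to_subtype
  have hfin2 : Finite (L F n m) := (finite_L n m).to_subtype
  letI : Fintype (L F l (n * m)) := Fintype.ofFinite _
  letI : Fintype (L F n m) := Fintype.ofFinite _
  -- the three bad sets
  set PA : (Fin l → L F n m) → Prop := fun w => ∃ v ∈ L F n D₂, v ≠ 0 ∧
    ∀ i, ∑ j, (w i : Fin n → F[X]) j * v j = 0 with hPA
  set PB : L F l (n * m) → Prop := fun x => ∃ z ∈ L F l (m + (D₂ + t)), z ≠ 0 ∧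
    ∑ i, z i * (x : Fin l → F[X]) i ^ a = 0 with hPB
  set PC : (Fin l → L F n m) → Prop := fun w => B < Nat.card {u : L F n m //
      n ≤ l + Module.finrank (RatFunc F)
        (orth (Fin.cons (u : Fin n → F[X]) (fun i => (w i : Fin n → F[X])) :
          Fin (l + 1) → Fin n → F[X]))} with hPC
  have hA := bad_a (F := F) (l := l) (n := n) (m := m) (D₂ := D₂) (by omega) hp1 hp2
  have hBb := bad_b (F := F) (l := l) a ha (n * m) (m + (D₂ + t)) hl0 (by
    have h1 : 8 * a ^ l ≤ Q ^ (8 * a ^ l) :=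
      (Nat.lt_pow_self (by omega : 1 < Q)).le
    calc 8 * a ^ l * Q ^ (l * (m + (D₂ + t))) ≤ Q ^ (8 * a ^ l) * Q ^ (l * (m + (D₂ + t))) :=
          Nat.mul_le_mul_right _ h1
      _ = Q ^ (8 * a ^ l + l * (m + (D₂ + t))) := (pow_add _ _ _).symm
      _ ≤ Q ^ (n * m) := Nat.pow_le_pow_right (by omega) hp4)
  have hC := hB m
  have hAc : Nat.card {w : Fin l → L F n m // PA w} =
      (Finset.univ.filter PA).card := by
    rw [Nat.card_eq_fintype_card, Fintype.card_subtype]
  have hBc : Nat.card {x : L F l (n * m) // PB x} = (Finset.univ.filter PB).card := by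
    rw [Nat.card_eq_fintype_card, Fintype.card_subtype]
  have hCc : Nat.card {w : Fin l → L F n m // PC w} =
      (Finset.univ.filter PC).card := by
    rw [Nat.card_eq_fintype_card, Fintype.card_subtype]
  have hA' : 8 * (Finset.univ.filter PA).card ≤ Q ^ (l * (n * m)) := by rw [← hAc]; exact hA
  have hB' : 8 * (Finset.univ.filter PB).card ≤ Q ^ (l * (n * m)) := by rw [← hBc]; exact hBb
  have hC' : 8 * (Finset.univ.filter PC).card ≤ Q ^ (l * (n * m)) := by rw [← hCc]; exact hC
  -- the good set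
  let R : L F l (n * m) → (Fin l → L F n m) := fun x => rows p e l m x
  have hRinj : Function.Injective R := fun x y h => rows_inj p e l m h
  have hpull : ∀ P : (Fin l → L F n m) → Prop,
      (Finset.univ.filter (fun x => P (R x))).card ≤ (Finset.univ.filter P).card := by
    intro P
    apply Finset.card_le_card_of_injOn R
    · intro x hx
      have hx' := (Finset.mem_filter.mp (Finset.mem_coe.mp hx)).2
      exact Finset.mem_coe.mpr (Finset.mem_filter.mpr ⟨Finset.mem_univ _, hx'⟩)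
    · exact hRinj.injOn
  set G : Finset (L F l (n * m)) :=
    Finset.univ.filter (fun x => ¬ PA (R x) ∧ ¬ PB x ∧ ¬ PC (R x)) with hG
  obtain ⟨SA, hSA⟩ : ∃ S : Finset (L F l (n * m)), S = Finset.univ.filter (fun x => PA (R x)) :=
    ⟨_, rfl⟩
  obtain ⟨SB, hSB⟩ : ∃ S : Finset (L F l (n * m)), S = Finset.univ.filter PB := ⟨_, rfl⟩
  obtain ⟨SC, hSC⟩ : ∃ S : Finset (L F l (n * m)), S = Finset.univ.filter (fun x => PC (R x)) :=
    ⟨_, rfl⟩
  have hcov : (Finset.univ : Finset (L F l (n * m))) ⊆ G ∪ (SA ∪ (SB ∪ SC)) := by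
    intro x _
    simp only [hG, hSA, hSB, hSC, Finset.mem_union, Finset.mem_filter, Finset.mem_univ, true_and]
    by_cases c1 : PA (R x)
    · exact Or.inr (Or.inl c1)
    by_cases c2 : PB x
    · exact Or.inr (Or.inr (Or.inl c2))
    by_cases c3 : PC (R x)
    · exact Or.inr (Or.inr (Or.inr c3))
    exact Or.inl ⟨c1, c2, c3⟩
  have cA : SA.card ≤ (Finset.univ.filter PA).card := by rw [hSA]; exact hpull PA
  have cB : SB.card = (Finset.univ.filter PB).card := by rw [hSB]
  have cC : SC.card ≤ (Finset.univ.filter PC).card := by rw [hSC]; convert hpull PC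
  have hcard : Q ^ (l * (n * m)) ≤ (Finset.univ : Finset (L F l (n * m))).card := by
    rw [Finset.card_univ, ← Nat.card_eq_fintype_card]
    exact card_L_ge l (n * m)
  have hsum : Q ^ (l * (n * m)) ≤ G.card + ((Finset.univ.filter PA).card +
      ((Finset.univ.filter PB).card + (Finset.univ.filter PC).card)) := by
    have u1 := hcard.trans (Finset.card_le_card hcov)
    have u2 := Finset.card_union_le G (SA ∪ (SB ∪ SC))
    have u3 := Finset.card_union_le SA (SB ∪ SC)
    have u4 := Finset.card_union_le SB SC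
    omega
  have hGc : Q ^ (l * (n * m)) ≤ 8 * G.card := by omega
  -- the fibres
  set Φ : L F l (n * m) → F[X] := fun x => ∑ i, (x : Fin l → F[X]) i ^ (a * n + 1) with hΦ
  have hfib : ∀ b ∈ G.image Φ, (G.filter (fun x => Φ x = b)).card ≤ B ^ l := by
    intro b hb
    obtain ⟨y, hy, hyb⟩ := Finset.mem_image.mp hb
    have hyG := (Finset.mem_filter.mp hy).2
    have hyA : ¬ PA (R y) := hyG.1
    have hyC : Nat.card {u : L F n m // n ≤ l + Module.finrank (RatFunc F)
        (orth (Fin.cons (u : Fin n → F[X]) (fun i => ((R y) i : Fin n → F[X])) :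
          Fin (l + 1) → Fin n → F[X]))} ≤ B := not_lt.mp hyG.2.2
    set T : Finset (L F n m) := Finset.univ.filter (fun u => n ≤ l + Module.finrank (RatFunc F)
        (orth (Fin.cons (u : Fin n → F[X]) (fun i => ((R y) i : Fin n → F[X])) :
          Fin (l + 1) → Fin n → F[X]))) with hT
    have hTc : T.card ≤ B := by
      rw [hT, ← Fintype.card_subtype, ← Nat.card_eq_fintype_card]
      exact hyC
    have hinj : (G.filter (fun x => Φ x = b)).card ≤
        (Fintype.piFinset (fun _ : Fin l => T)).card := by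
      apply Finset.card_le_card_of_injOn R
      · intro x hx
        have hx' := Finset.mem_filter.mp (Finset.mem_coe.mp hx)
        have hxG := (Finset.mem_filter.mp hx'.1).2
        have hxB : ¬ PB x := hxG.2.1
        have hxy : ∑ i, (x : Fin l → F[X]) i ^ (a * n + 1) =
            ∑ i, (y : Fin l → F[X]) i ^ (a * n + 1) := by
          have h1 : Φ x = Φ y := by rw [hx'.2, hyb]
          exact h1
        apply Finset.mem_coe.mpr
        rw [Fintype.mem_piFinset]
        intro i₀
        rw [hT, Finset.mem_filter]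
        refine ⟨Finset.mem_univ _, ?_⟩
        have hφ := digits_eq p e a l (x : Fin l → F[X]) (y : Fin l → F[X])
          (dg p e l m x) (dg p e l m y) (dg_spec p e l m x) (dg_spec p e l m y) hxy
        exact rank_key (a := a) (D₂ := D₂) (t := t) (m := m) (x : Fin l → F[X]) (y : Fin l → F[X])
          (fun i => ((R x) i : Fin n → F[X])) (fun i => ((R y) i : Fin n → F[X]))
          (fun i => ((R x) i).2) (fun i => ((R y) i).2) hφ
          (fun v hv hv2 => by
            by_contra hv0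
            exact hyA ⟨v, hv, hv0, hv2⟩)
          (fun z hz hz2 => by
            by_contra hz0
            exact hxB ⟨z, hz, hz0, hz2⟩)
          hp3 i₀
      · exact hRinj.injOn
    refine hinj.trans ?_
    rw [Fintype.card_piFinset, Finset.prod_const, Finset.card_univ, Fintype.card_fin]
    exact Nat.pow_le_pow_left hTc l
  have hGi := Finset.card_le_mul_card_image G (B ^ l) hfib
  have himg : G.image Φ ⊆ (finite_L (F := F) l (n * m)).toFinset.image
      (fun x => ∑ i, x i ^ (a * n + 1)) := by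
    intro f hf
    obtain ⟨x, _, rfl⟩ := Finset.mem_image.mp hf
    rw [Finset.mem_image]
    exact ⟨(x : Fin l → F[X]), (Set.Finite.mem_toFinset _).mpr x.2, rfl⟩
  calc Q ^ (l * (n * m)) ≤ 8 * G.card := hGc
    _ ≤ 8 * (B ^ l * (G.image Φ).card) := Nat.mul_le_mul_left 8 hGi
    _ ≤ 8 * (B ^ l * ((finite_L (F := F) l (n * m)).toFinset.image
        (fun x => ∑ i, x i ^ (a * n + 1))).card) :=
        Nat.mul_le_mul_left 8 (Nat.mul_le_mul_left _ (Finset.card_le_card himg))
    _ = _ := by ring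

end HG48
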