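import Pool.Agent.helper48.HG.E
import Pool.Agent.helper48.HF.E4

open Polynomial

namespace HG48

open HF48

variable {F : Type} [Field F] [Fintype F]

theorem rep_pos (l k D : ℕ) (hk : 0 < k) : 1 ≤ Nat.card (Rep F l k D) := by
  have hfin : Finite (Rep F l k D) := (finite_Rep l k D).to_subtype
  have hmem : (0 : F[X]) ∈ Rep F l k D := by
    refine ⟨by simp, fun _ => 0, fun _ => by simp, ?_⟩
    simp [zero_pow hk.ne']
  haveI : Nonempty (Rep F l k D) := ⟨⟨0, hmem⟩⟩
  exact Nat.card_pos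

open Classical in
theorem rep_bound_two (p e a l : ℕ) [Fact p.Prime] [CharP F p] (ha : 0 < a)
    (hl : 2 * l < p ^ e) :
    ∃ c : ℝ, 0 < c ∧ ∀ D : ℕ, c * (Fintype.card F : ℝ) ^ ((l : ℝ) * D / ((a * p ^ e + 1 : ℕ) : ℝ)) ≤
      Nat.card (Rep F l (a * p ^ e + 1) D) := by
  rcases Nat.eq_zero_or_pos l with hl0 | hl0
  · refine ⟨1, one_pos, fun D => ?_⟩
    have h1 := rep_pos (F := F) l (a * p ^ e + 1) D (by omega)
    rw [hl0] at h1 ⊢
    rw [Nat.cast_zero, zero_mul, zero_div, Real.rpow_zero, one_mul]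
    exact_mod_cast h1
  obtain ⟨K, hK0, m₀, hK⟩ := vals_bound (F := F) p e a l ha hl0 hl
  set k : ℕ := a * p ^ e + 1 with hk
  set n : ℕ := p ^ e with hn
  set Q : ℕ := Fintype.card F with hQ
  have hQ2 : 2 ≤ Q := Fintype.one_lt_card
  have hQ1 : (1 : ℝ) ≤ Q := by exact_mod_cast (by omega : 1 ≤ Q)
  have hQ0 : (0 : ℝ) < Q := by linarith
  have hn0 : 0 < n := by omega
  have hk0 : 0 < k := by omega
  set E : ℕ := K * Q ^ (l * (n * (m₀ + 1))) with hE
  have hE0 : 0 < E := Nat.mul_pos hK0 (pow_pos (by omega) _)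
  refine ⟨1 / (E : ℝ), by positivity, ?_⟩
  intro D
  set N : ℕ := D / k with hN
  have hDN : D < k * (N + 1) := Nat.lt_mul_div_succ D hk0
  have hkN : k * N ≤ D := Nat.mul_div_le D k
  set m : ℕ := (N + 1) / n with hm
  have hm1 : n * m ≤ N + 1 := Nat.mul_div_le _ _
  have hm2 : N + 1 < n * (m + 1) := Nat.lt_mul_div_succ _ hn0
  have h4 : (Q : ℝ) ^ ((l : ℝ) * D / (k : ℝ)) ≤ (Q : ℝ) ^ (l * (N + 1)) := by
    rw [← Real.rpow_natCast]
    apply Real.rpow_le_rpow_of_exponent_le hQ1
    rw [div_le_iff₀ (by exact_mod_cast hk0)]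
    push_cast
    have h5 : (D : ℝ) ≤ k * (N + 1) := by exact_mod_cast hDN.le
    have h6 : (0 : ℝ) ≤ l := Nat.cast_nonneg l
    nlinarith
  have key : Q ^ (l * (N + 1)) ≤ E * Nat.card (Rep F l k D) := by
    rcases lt_or_ge m m₀ with hmm | hmm
    · have h1 : Q ^ (l * (N + 1)) ≤ Q ^ (l * (n * (m₀ + 1))) := by
        apply Nat.pow_le_pow_right (by omega)
        apply Nat.mul_le_mul_left
        have h2 : n * (m + 1) ≤ n * (m₀ + 1) := Nat.mul_le_mul_left n (by omega)
        omega
      have h2 := rep_pos (F := F) l k D hk0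
      calc Q ^ (l * (N + 1)) ≤ 1 * Q ^ (l * (n * (m₀ + 1))) * 1 := by simpa using h1
        _ ≤ K * Q ^ (l * (n * (m₀ + 1))) * Nat.card (Rep F l k D) :=
            Nat.mul_le_mul (Nat.mul_le_mul_right _ hK0) h2
    · have h1 := hK m hmm
      set I := ((finite_L (F := F) l (n * m)).toFinset.image (fun x => ∑ i, x i ^ k)) with hI
      have h2 : I.card ≤ Nat.card (Rep F l k D) := by
        have h3 : (I : Set F[X]) ⊆ Rep F l k D := by
          intro f hf
          rw [hI, Finset.mem_coe, Finset.mem_image] at hf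
          obtain ⟨x, hx, rfl⟩ := hf
          rw [Set.Finite.mem_toFinset] at hx
          have hx1 : x ∈ L F l (N + 1) := L_mono hm1 hx
          have hx' : ∀ i, (x i).natDegree ≤ N := mem_L_iff.mp hx1
          have hx2 : ∀ i, k * (x i).natDegree ≤ D := fun i =>
            (Nat.mul_le_mul_left k (hx' i)).trans hkN
          refine ⟨?_, x, hx2, rfl⟩
          apply Polynomial.natDegree_sum_le_of_forall_le
          intro i _
          exact (Polynomial.natDegree_pow_le).trans (hx2 i)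
        have h4 := Set.ncard_le_ncard h3 (finite_Rep l k D)
        rw [Set.ncard_coe_finset] at h4
        exact h4
      have h5 : Q ^ (l * (N + 1)) ≤ Q ^ (l * n) * Q ^ (l * (n * m)) := by
        rw [← pow_add]
        apply Nat.pow_le_pow_right (by omega)
        rw [← mul_add]
        apply Nat.mul_le_mul_left
        have : n * (m + 1) = n + n * m := by ring
        omega
      have h6 : Q ^ (l * n) ≤ Q ^ (l * (n * (m₀ + 1))) := by
        apply Nat.pow_le_pow_right (by omega)
        apply Nat.mul_le_mul_left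
        exact Nat.le_mul_of_pos_right n (by omega)
      calc Q ^ (l * (N + 1)) ≤ Q ^ (l * n) * Q ^ (l * (n * m)) := h5
        _ ≤ Q ^ (l * (n * (m₀ + 1))) * (K * I.card) := Nat.mul_le_mul h6 h1
        _ ≤ Q ^ (l * (n * (m₀ + 1))) * (K * Nat.card (Rep F l k D)) :=
            Nat.mul_le_mul_left _ (Nat.mul_le_mul_left K h2)
        _ = E * Nat.card (Rep F l k D) := by rw [hE]; ring
  rw [one_div, inv_mul_le_iff₀ (by exact_mod_cast hE0)]
  refine h4.trans ?_
  exact_mod_cast key

end HG48
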